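import Mathlib
import Pool.Agent.Helper38.TW.SqCard

/-!
# TW, second descent, leaf L1: the counting lemma for `x (a x² - n)`

`count_class`: for nonzero integers `a, n, c` there is `N` such that for every `s ≠ 0` at most `N` integers `x` have the form `s u²`, `u ≠ 0`, with `a x² - n = c y²`, `y ≠ 0`. The cubic `X (a X² - n)` is separable; `sqmod_lin` for `X`, `sqmod_quad` or `sel_roots` over `ℚ` for `a X² - n`, then `sqmod_card`.
-/

set_option autoImplicit false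

namespace Pool.Agent.Helper46.TW

open Polynomial Pool.Agent.Helper38.TW

private theorem g_map (a n : ℤ) : (C a * X ^ 2 - C n : ℤ[X]).map (Int.castRingHom ℚ) =
    C (a : ℚ) * X ^ 2 - C (n : ℚ) := by
  simp

private theorem g_deg (a n : ℤ) (ha : a ≠ 0) : (C a * X ^ 2 - C n : ℤ[X]).natDegree = 2 := by
  rw [natDegree_sub_C, natDegree_C_mul_X_pow 2 a ha]

/-- colours for the quadratic factor -/
private theorem colour (a n c : ℤ) (ha : a ≠ 0) (hn : n ≠ 0) (hc : c ≠ 0) :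
    ∃ (T : Type) (_ : Fintype T) (col : ℤ → T), ∀ x x' : ℤ,
      (∃ y : ℤ, y ≠ 0 ∧ a * x ^ 2 - n = c * y ^ 2) →
      (∃ y : ℤ, y ≠ 0 ∧ a * x' ^ 2 - n = c * y ^ 2) → col x = col x' →
      SqMod ((C a * X ^ 2 - C n : ℤ[X]).map (Int.castRingHom ℚ)) x x' := by
  classical
  have haQ : (a : ℚ) ≠ 0 := by exact_mod_cast ha
  have hnQ : (n : ℚ) ≠ 0 := by exact_mod_cast hn
  have hcQ : (c : ℚ) ≠ 0 := by exact_mod_cast hc
  have heval : ∀ x : ℤ, (C a * X ^ 2 - C n : ℤ[X]).eval x = a * x ^ 2 - n := by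
    intro x
    simp
  by_cases hirr : Irreducible ((C a * X ^ 2 - C n : ℤ[X]).map (Int.castRingHom ℚ))
  · obtain ⟨m, col, h1, h2⟩ := sqmod_quad (g_deg a n ha) hirr c hc
    refine ⟨Fin m, inferInstance, fun x => ⟨col x, h1 x⟩, fun x x' hx hx' h => ?_⟩
    refine h2 x x' ?_ ?_ ?_
    · obtain ⟨y, hy, e⟩ := hx
      exact ⟨y, hy, by rw [heval, e]⟩
    · obtain ⟨y, hy, e⟩ := hx'
      exact ⟨y, hy, by rw [heval, e]⟩
    · exact congrArg Fin.val h
  · -- a rational root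
    have hdegQ : (C (a : ℚ) * X ^ 2 - C (n : ℚ) : ℚ[X]).natDegree = 2 := by
      rw [natDegree_sub_C, natDegree_C_mul_X_pow 2 (a : ℚ) haQ]
    have hroots : (C (a : ℚ) * X ^ 2 - C (n : ℚ) : ℚ[X]).roots ≠ 0 := by
      intro h
      apply hirr
      rw [g_map]
      exact (irreducible_iff_roots_eq_zero_of_degree_le_three hdegQ.ge
        (by rw [hdegQ]; norm_num)).2 h
    obtain ⟨r, hr⟩ := Multiset.exists_mem_of_ne_zero hroots
    have hr2 : (a : ℚ) * r ^ 2 = n := by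
      have h1 := (mem_roots'.1 hr).2
      rw [IsRoot.def] at h1
      simp only [eval_sub, eval_mul, eval_C, eval_pow, eval_X] at h1
      linarith
    have hr0 : r ≠ 0 := by
      rintro rfl
      apply hnQ
      rw [← hr2]
      ring
    obtain ⟨α, hα⟩ : ∃ α : Bool → ℚ, α = fun j => if j then r else -r := ⟨_, rfl⟩
    have hprod : ∏ j, (X - C (α j)) = X ^ 2 - C (r ^ 2) := by
      rw [Fintype.prod_bool, hα]
      simp only [if_true, C_pow]
      simp
      ring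
    have hgfac : (C a * X ^ 2 - C n : ℤ[X]).map (Int.castRingHom ℚ) =
        C (a : ℚ) * ∏ j, (X - C (α j)) := by
      rw [g_map, hprod, mul_sub, ← C_mul, hr2]
    have hinj : Function.Injective α := by
      have h2 : r ≠ -r := by
        intro h
        apply hr0
        linarith
      rw [hα]
      intro i j hij
      cases i <;> cases j
      · rfl
      · simp at hij
        exact absurd hij.symm h2
      · simp at hij
        exact absurd hij h2
      · rfl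
    obtain ⟨Q, hQ0, hQ⟩ := sel_roots ℚ (C c * (C a * X ^ 2 - C n)) Bool α (c * a)
      (mul_ne_zero hc ha) hinj (by
        rw [Polynomial.map_mul, hgfac, Polynomial.map_C, eq_intCast, ← mul_assoc, ← C_mul]
        push_cast
        rfl)
    have hQ' : ∀ x : ℤ, (∃ y : ℤ, y ≠ 0 ∧ a * x ^ 2 - n = c * y ^ 2) → ∀ j, ∃ κ ∈ Q,
        ∃ η : ℚ, ((c * a : ℤ) : ℚ) * ((x : ℚ) - α j) = κ * η ^ 2 := by
      rintro x ⟨y, hy, e⟩
      refine hQ x (c * y) (mul_ne_zero hc hy) ?_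
      rw [eval_mul, eval_C, heval, e]
      ring
    obtain ⟨col, hcol⟩ : ∃ col : ℤ → Bool → Option Q, ∀ x : ℤ,
        (∃ y : ℤ, y ≠ 0 ∧ a * x ^ 2 - n = c * y ^ 2) → ∀ j, ∃ κ : Q, col x j = some κ ∧
        ∃ η : ℚ, ((c * a : ℤ) : ℚ) * ((x : ℚ) - α j) = κ * η ^ 2 := by
      have h1 : ∀ (x : ℤ) (j : Bool), ∃ o : Option Q,
          (∃ y : ℤ, y ≠ 0 ∧ a * x ^ 2 - n = c * y ^ 2) → ∃ κ : Q, o = some κ ∧
          ∃ η : ℚ, ((c * a : ℤ) : ℚ) * ((x : ℚ) - α j) = κ * η ^ 2 := by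
        intro x j
        by_cases h : ∃ y : ℤ, y ≠ 0 ∧ a * x ^ 2 - n = c * y ^ 2
        · obtain ⟨κ, hκ, η, e⟩ := hQ' x h j
          exact ⟨some ⟨κ, hκ⟩, fun _ => ⟨⟨κ, hκ⟩, rfl, η, e⟩⟩
        · exact ⟨none, fun h' => absurd h' h⟩
      choose col hcol using h1
      exact ⟨col, fun x hx j => hcol x j hx⟩
    refine ⟨Bool → Option Q, inferInstance, col, fun x x' hx hx' h => ?_⟩
    rw [hgfac]
    have hcaQ : ((c * a : ℤ) : ℚ) ≠ 0 := by
      exact_mod_cast mul_ne_zero hc ha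
    have hone : ∀ j, SqMod (X - C (α j)) x x' := by
      intro j
      obtain ⟨κ, e1, η, e2⟩ := hcol x hx j
      obtain ⟨κ', e1', η', e2'⟩ := hcol x' hx' j
      have h3 : κ = κ' := by
        have h4 : some κ = some κ' := by rw [← e1, ← e1', h]
        exact Option.some.inj h4
      rw [← h3] at e2'
      refine ⟨C ((κ : ℚ) * η * η' / ((c * a : ℤ) : ℚ)), ?_⟩
      rw [dvd_iff_isRoot, IsRoot.def]
      simp only [eval_sub, eval_mul, eval_C, eval_X, eval_pow]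
      have h5 : (x : ℚ) - α j = κ * η ^ 2 / ((c * a : ℤ) : ℚ) := by
        rw [eq_div_iff hcaQ, ← e2]
        ring
      have h6 : (x' : ℚ) - α j = κ * η' ^ 2 / ((c * a : ℤ) : ℚ) := by
        rw [eq_div_iff hcaQ, ← e2']
        ring
      rw [h5, h6, div_pow, div_mul_div_comm, sub_eq_zero, ← sq]
      congr 1
      ring
    have hall : SqMod (∏ j, (X - C (α j))) x x' := by
      refine sqmod_prod Finset.univ (fun j => X - C (α j)) ?_ fun j _ => hone j
      intro i _ k _ hik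
      exact isCoprime_X_sub_C_of_isUnit_sub
        (isUnit_iff_ne_zero.2 (sub_ne_zero.2 fun h => hik (hinj h)))
    obtain ⟨q, hq⟩ := hall
    refine ⟨q, ?_⟩
    have hu : IsUnit (C (a : ℚ)) := Polynomial.isUnit_C.mpr (isUnit_iff_ne_zero.mpr haQ)
    rw [hu.mul_left_dvd]
    exact hq

theorem count_class (a n c : ℤ) (ha : a ≠ 0) (hn : n ≠ 0) (hc : c ≠ 0) :
    ∃ N : ℕ, ∀ s : ℤ, s ≠ 0 → ∀ S : Finset ℤ,
      (∀ x ∈ S, (∃ u : ℤ, u ≠ 0 ∧ x = s * u ^ 2) ∧
        ∃ y : ℤ, y ≠ 0 ∧ a * x ^ 2 - n = c * y ^ 2) → S.card ≤ N := by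
  classical
  have haQ : (a : ℚ) ≠ 0 := by exact_mod_cast ha
  have hnQ : (n : ℚ) ≠ 0 := by exact_mod_cast hn
  have hXmap : (X : ℤ[X]).map (Int.castRingHom ℚ) = X := Polynomial.map_X _
  have hcop : IsCoprime (X : ℚ[X]) (C (a : ℚ) * X ^ 2 - C (n : ℚ)) := by
    refine ⟨C ((a : ℚ) / n) * X, -C (1 / (n : ℚ)), ?_⟩
    have h1 : C ((a : ℚ) / n) * X * X + -C (1 / (n : ℚ)) * (C (a : ℚ) * X ^ 2 - C (n : ℚ)) =
        (C ((a : ℚ) / n) - C (1 / (n : ℚ)) * C (a : ℚ)) * X ^ 2 + C (1 / (n : ℚ)) * C (n : ℚ) := by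
      ring
    rw [h1, ← C_mul, ← C_mul, ← C_sub]
    have h2 : (a : ℚ) / n - 1 / n * a = 0 := by
      field_simp
      ring
    have h3 : 1 / (n : ℚ) * n = 1 := by
      field_simp
    rw [h2, h3]
    simp
  have hsepg : (C (a : ℚ) * X ^ 2 - C (n : ℚ) : ℚ[X]).Separable := by
    refine ⟨-C (1 / (n : ℚ)), C (1 / (2 * n : ℚ)) * X, ?_⟩
    have h0 : derivative (C (a : ℚ) * X ^ 2 - C (n : ℚ)) = C (2 * a : ℚ) * X := by
      rw [derivative_sub, derivative_C, derivative_C_mul_X_pow, sub_zero]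
      simp
      ring
    rw [h0]
    have h1 : -C (1 / (n : ℚ)) * (C (a : ℚ) * X ^ 2 - C (n : ℚ)) +
        C (1 / (2 * n : ℚ)) * X * (C (2 * a : ℚ) * X) =
        (C (1 / (2 * n : ℚ)) * C (2 * a : ℚ) - C (1 / (n : ℚ)) * C (a : ℚ)) * X ^ 2 +
          C (1 / (n : ℚ)) * C (n : ℚ) := by
      ring
    rw [h1, ← C_mul, ← C_mul, ← C_mul, ← C_sub]
    have h2 : 1 / (2 * n : ℚ) * (2 * a) - 1 / n * a = 0 := by
      field_simp
      ring
    have h3 : 1 / (n : ℚ) * n = 1 := by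
      field_simp
    rw [h2, h3]
    simp
  have hdeg : (X * (C a * X ^ 2 - C n) : ℤ[X]).natDegree = 3 := by
    have h0 : (C a * X ^ 2 - C n : ℤ[X]) ≠ 0 := by
      intro h
      have h1 := g_deg a n ha
      rw [h] at h1
      simp at h1
    rw [natDegree_mul X_ne_zero h0, natDegree_X, g_deg a n ha]
  have hmap : (X * (C a * X ^ 2 - C n) : ℤ[X]).map (Int.castRingHom ℚ) =
      X * (C (a : ℚ) * X ^ 2 - C (n : ℚ)) := by
    rw [Polynomial.map_mul, hXmap, g_map]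
  obtain ⟨N₀, hN₀⟩ := sqmod_card (X * (C a * X ^ 2 - C n)) hdeg (by
    rw [hmap]
    exact separable_X.mul hsepg hcop)
  obtain ⟨T, hT, col, hcol⟩ := colour a n c ha hn hc
  refine ⟨N₀ * Fintype.card T, fun s hs S hS => ?_⟩
  refine (Finset.card_le_mul_card_image (f := col) S N₀ fun t _ => ?_).trans
    (Nat.mul_le_mul_left _ (Finset.card_le_univ _))
  refine hN₀ _ fun x hx x' hx' => ?_
  rw [Finset.mem_filter] at hx hx'
  obtain ⟨⟨u, hu, e1⟩, h1⟩ := hS x hx.1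
  obtain ⟨⟨u', hu', e1'⟩, h1'⟩ := hS x' hx'.1
  rw [hmap]
  refine sqmod_mul hcop ?_ ?_
  · have h2 := sqmod_lin (g := (X : ℤ[X])) natDegree_X (m := s) (x := x) (x' := x') (u := u)
      (u' := u') (by rw [eval_X, e1]) (by rw [eval_X, e1'])
    rwa [hXmap] at h2
  · have h2 := hcol x x' h1 h1' (hx.2.trans hx'.2.symm)
    rwa [g_map] at h2

end Pool.Agent.Helper46.TW
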